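import Pool.Agent.T9h59.OR.B

/-!
# The orders of the subgroups of `F_p^*` which contain a small integer: sets of natural numbers
-/

set_option autoImplicit false

namespace Pool.Agent.T9h59.OR

open Finset
open Pool.Agent.N733.TG (Expanding)

/-- a count of natural numbers up to integers `X`, for real `X` -/
theorem nat_count (Adm Good : ℕ → Prop) {s : ℝ} (hs : 0 ≤ s)
    (hP : ∀ ε : ℝ, 0 < ε → ∃ C : ℝ, ∀ X : ℕ, 1 ≤ X →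
      ({t : ℕ | 1 ≤ t ∧ t ≤ X ∧ Adm t ∧ ¬ Good t}.ncard : ℝ) ≤ C * (X : ℝ) ^ (s + ε)) :
    ∀ ε : ℝ, 0 < ε → ∃ C : ℝ, ∀ X : ℝ, 1 ≤ X →
      {t : ℕ | ((1 ≤ t ∧ Adm t) ∧ ¬ Good t) ∧ (t : ℝ) ≤ X}.Finite ∧
      ({t : ℕ | ((1 ≤ t ∧ Adm t) ∧ ¬ Good t) ∧ (t : ℝ) ≤ X}.ncard : ℝ) ≤ C * X ^ (s + ε) := by
  intro ε hε
  obtain ⟨C, hC⟩ := hP ε hε
  refine ⟨|C|, fun X hX => ?_⟩
  have hX0 : 0 ≤ X := by linarith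
  have hX1 : 1 ≤ ⌊X⌋₊ := Nat.le_floor (by exact_mod_cast hX)
  have e : {t : ℕ | ((1 ≤ t ∧ Adm t) ∧ ¬ Good t) ∧ (t : ℝ) ≤ X} = {t : ℕ | 1 ≤ t ∧ t ≤ ⌊X⌋₊ ∧ Adm t ∧ ¬ Good t} := by
    ext t
    simp only [Set.mem_ofPred_eq]
    rw [Nat.le_floor_iff hX0]
    tauto
  rw [e]
  refine ⟨(Set.finite_Icc 1 ⌊X⌋₊).subset (fun t ht => ⟨ht.1, ht.2.1⟩), (hC _ hX1).trans ?_⟩
  calc C * ((⌊X⌋₊ : ℕ) : ℝ) ^ (s + ε) ≤ |C| * ((⌊X⌋₊ : ℕ) : ℝ) ^ (s + ε) :=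
        mul_le_mul_of_nonneg_right (le_abs_self C) (by positivity)
    _ ≤ |C| * X ^ (s + ε) := mul_le_mul_of_nonneg_left
        (Real.rpow_le_rpow (Nat.cast_nonneg _) (Nat.floor_le hX0) (by linarith)) (abs_nonneg C)

/-- **The tool for natural numbers.** -/
theorem sub_good_nat (Adm Good : ℕ → Prop) {G : ℕ → ℝ} {d : ℝ} (hG : Expanding G d) {s κ : ℝ} (hs : 0 ≤ s) (hκ : 0 ≤ κ)
    (h1 : d * s + κ < 1)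
    (hP : ∀ ε : ℝ, 0 < ε → ∃ C : ℝ, ∀ X : ℕ, 1 ≤ X →
      ({t : ℕ | 1 ≤ t ∧ t ≤ X ∧ Adm t ∧ ¬ Good t}.ncard : ℝ) ≤ C * (X : ℝ) ^ (s + ε))
    {c η : ℝ} (hc0 : 0 ≤ c) (hc1 : c < 1) (hη : η < (1 - c) * (1 - (d * s + κ)) / 2) :
    ∃ C : ℝ, ∀ X : ℕ, 1 ≤ X →
      ({p : ℕ | p.Prime ∧ p ≤ X ∧ ¬ ∀ w, SubOrder ((X : ℝ) ^ c) p w → ∀ n : ℕ, 1 ≤ n → Adm n →
        |(n : ℝ) - G w| ≤ (w : ℝ) ^ κ → Good n}.ncard : ℝ) ≤ C * (X : ℝ) ^ (1 - η) := by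
  obtain ⟨C, hC⟩ := sub_good (fun t : ℕ => 1 ≤ t ∧ Adm t) Good (fun t : ℕ => (t : ℝ)) hG hs hκ h1
    (nat_count Adm Good hs hP) hc0 hc1 hη
  refine ⟨C, fun X hX => le_trans (le_of_eq ?_) (hC X hX)⟩
  congr 2
  ext p
  simp only [Set.mem_ofPred_eq, and_imp]

end Pool.Agent.T9h59.OR
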