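import Pool.Agent.T9h59.OR.B

/-!
# The orders of the subgroups of `F_p^*` which contain a small integer: finite exceptional sets depending on the scale

For a finite set `S` of integers, which may depend on `X`, all primes `p ≤ X` but `C |S| X ^ (1 - η)`,
`η < (1 - c) (1 - κ) / 2`, have the following property: no member of `S` is within `n ^ κ` of `G n`, for all orders `n` of
subgroups of `F_p^*` which contain an integer `a`, `2 ≤ a ≤ X ^ c`. The constant `C` does not depend on `S`.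
-/

set_option autoImplicit false

namespace Pool.Agent.T9h59.OR

open Finset Classical
open Pool.Agent.N733.TG (Expanding step_sum)

/-- the number of `n ≤ Y` with a given number near `G n` -/
lemma near_one {G : ℕ → ℝ} {α : ℝ} (hα : 0 < α) (hstep : ∀ v : ℕ, 1 ≤ v → α ≤ G (v + 1) - G v) {κ : ℝ} (hκ : 0 ≤ κ)
    (t : ℝ) (Y : ℕ) (hY : 1 ≤ Y) :
    (((Icc 1 Y).filter (fun n : ℕ => |t - G n| ≤ (n : ℝ) ^ κ)).card : ℝ) ≤ (2 / α + 1) * (Y : ℝ) ^ κ := by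
  have hY1 : (1 : ℝ) ≤ (Y : ℝ) ^ κ := Real.one_le_rpow (by exact_mod_cast hY) hκ
  rcases ((Icc 1 Y).filter (fun n : ℕ => |t - G n| ≤ (n : ℝ) ^ κ)).eq_empty_or_nonempty with h0 | h0
  · rw [h0, card_empty, Nat.cast_zero]
    positivity
  · obtain ⟨A, hA⟩ : ∃ A, A = (Icc 1 Y).filter (fun n : ℕ => |t - G n| ≤ (n : ℝ) ^ κ) := ⟨_, rfl⟩
    rw [← hA] at h0 ⊢
    obtain ⟨u, hu⟩ : ∃ u, u = A.min' h0 := ⟨_, rfl⟩
    have huA : u ∈ A := by rw [hu]; exact min'_mem _ _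
    have hmem : ∀ n ∈ A, 1 ≤ n ∧ |t - G n| ≤ (Y : ℝ) ^ κ := by
      intro n hn
      rw [hA, mem_filter, mem_Icc] at hn
      refine ⟨hn.1.1, hn.2.trans (Real.rpow_le_rpow (Nat.cast_nonneg _) ?_ hκ)⟩
      exact_mod_cast hn.1.2
    have hsub : A ⊆ Icc u (u + ⌊2 / α * (Y : ℝ) ^ κ⌋₊) := by
      intro n hn
      rw [mem_Icc]
      have h1 : u ≤ n := by rw [hu]; exact min'_le _ _ hn
      refine ⟨h1, ?_⟩
      have h2 := step_sum hstep (hmem u huA).1 h1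
      have h3 := abs_le.1 (hmem u huA).2
      have h4 := abs_le.1 (hmem n hn).2
      have h5 : ((n - u : ℕ) : ℝ) ≤ 2 / α * (Y : ℝ) ^ κ := by
        rw [div_mul_eq_mul_div, le_div_iff₀ hα]
        linarith [h3.1, h3.2, h4.1, h4.2]
      have h6 := Nat.le_floor h5
      omega
    have h7 : (A.card : ℝ) ≤ (⌊2 / α * (Y : ℝ) ^ κ⌋₊ : ℝ) + 1 := by
      have h8 := card_le_card hsub
      rw [Nat.card_Icc] at h8
      have h9 : u + ⌊2 / α * (Y : ℝ) ^ κ⌋₊ + 1 - u = ⌊2 / α * (Y : ℝ) ^ κ⌋₊ + 1 := by omega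
      rw [h9] at h8
      exact_mod_cast h8
    have h10 : (⌊2 / α * (Y : ℝ) ^ κ⌋₊ : ℝ) ≤ 2 / α * (Y : ℝ) ^ κ := Nat.floor_le (by positivity)
    calc (A.card : ℝ) ≤ 2 / α * (Y : ℝ) ^ κ + 1 := by linarith
      _ ≤ (2 / α + 1) * (Y : ℝ) ^ κ := by linarith

/-- **The tool for exceptional sets depending on the scale.** -/
theorem sub_scale {G : ℕ → ℝ} {d : ℝ} (hG : Expanding G d) {κ c η : ℝ} (hκ0 : 0 ≤ κ) (hκ1 : κ < 1) (hc0 : 0 ≤ c)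
    (hc1 : c < 1) (hη : η < (1 - c) * (1 - κ) / 2) :
    ∃ C : ℝ, 0 ≤ C ∧ ∀ X : ℕ, 1 ≤ X → ∀ S : Finset ℕ,
      ({p : ℕ | p.Prime ∧ p ≤ X ∧ ∃ n, SubOrder ((X : ℝ) ^ c) p n ∧ ∃ t ∈ S, |(t : ℝ) - G n| ≤ (n : ℝ) ^ κ}.ncard : ℝ) ≤
        C * S.card * (X : ℝ) ^ (1 - η) := by
  obtain ⟨α, hα, hstep⟩ := hG.step
  obtain ⟨ε, hε⟩ : ∃ ε : ℝ, ε = (1 - c) * (1 - κ) / 2 - η := ⟨_, rfl⟩
  have hε0 : 0 < ε := by rw [hε]; linarith
  refine ⟨(2 / α + 1) * (3 / ε + 2), by positivity, fun X hX S => ?_⟩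
  have h2 := exc_bound (W := {n : ℕ | ∃ t ∈ S, |(t : ℝ) - G n| ≤ (n : ℝ) ^ κ}) (θ := κ) (K := S.card * (2 / α + 1))
    hκ0 hκ1.le (fun Y hY => by
      have hsub : (Icc 1 Y).filter (fun n : ℕ => n ∈ {n : ℕ | ∃ t ∈ S, |(t : ℝ) - G n| ≤ (n : ℝ) ^ κ}) ⊆
          S.biUnion (fun t => (Icc 1 Y).filter (fun n : ℕ => |(t : ℝ) - G n| ≤ (n : ℝ) ^ κ)) := by
        intro n hn
        rw [mem_filter] at hn
        obtain ⟨t, ht, htn⟩ := hn.2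
        rw [mem_biUnion]
        exact ⟨t, ht, mem_filter.2 ⟨hn.1, htn⟩⟩
      have h3 : (((Icc 1 Y).filter (fun n : ℕ => n ∈ {n : ℕ | ∃ t ∈ S, |(t : ℝ) - G n| ≤ (n : ℝ) ^ κ})).card : ℝ) ≤
          ∑ t ∈ S, (((Icc 1 Y).filter (fun n : ℕ => |(t : ℝ) - G n| ≤ (n : ℝ) ^ κ)).card : ℝ) := by
        exact_mod_cast (card_le_card hsub).trans card_biUnion_le
      have h6 : ∑ t ∈ S, (((Icc 1 Y).filter (fun n : ℕ => |(t : ℝ) - G n| ≤ (n : ℝ) ^ κ)).card : ℝ) ≤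
          S.card * (2 / α + 1) * (Y : ℝ) ^ κ := by
        refine (sum_le_sum (fun (t : ℕ) _ => near_one hα hstep hκ0 (t : ℝ) Y hY)).trans (le_of_eq ?_)
        rw [sum_const, nsmul_eq_mul]
        ring
      exact le_of_eq_of_le (by congr!) (h3.trans h6)) hc0 hc1 hε0 X hX
  have h4 : 1 - (1 - c) * (1 - κ) / 2 + ε = 1 - η := by rw [hε]; ring
  rw [h4] at h2
  have h5 : ({p : ℕ | p.Prime ∧ p ≤ X ∧ ∃ n, SubOrder ((X : ℝ) ^ c) p n ∧ ∃ t ∈ S, |(t : ℝ) - G n| ≤ (n : ℝ) ^ κ}.ncard : ℝ) ≤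
      ((exc {n : ℕ | ∃ t ∈ S, |(t : ℝ) - G n| ≤ (n : ℝ) ^ κ} c X).card : ℝ) := by
    rw [Nat.cast_le, ← Set.ncard_coe_finset]
    apply Set.ncard_le_ncard _ (finite_toSet _)
    rintro p ⟨hp, hpX, n, hn, ht⟩
    rw [mem_coe, exc, mem_filter, mem_Icc]
    exact ⟨⟨hp.one_lt.le, hpX⟩, hp, n, ht, hn⟩
  refine (h5.trans h2).trans (le_of_eq ?_)
  ring

end Pool.Agent.T9h59.OR
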