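import Pool.Agent.N733.TG.K

/-!
# The orders of the subgroups of `F_p^*` which contain a small integer keep away from thin sets

Let `W` be a set with `O(X ^ θ)` elements up to `X`, `θ < 1`, and `0 ≤ c < 1`. For all primes `p ≤ X` but
`O_ε(X ^ (1 - (1 - c) (1 - θ) / 2 + ε))` no subgroup of `F_p^*` which contains an integer `a`, `2 ≤ a ≤ X ^ c`, has an order in
`W`. For `n ≤ y` the primes `p` with `p ∣ a ^ n - 1` are counted, and for `n > y` the cofactors `(p - 1) / n`.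
-/

set_option autoImplicit false

namespace Pool.Agent.T9h59.OR

open Finset Classical
open Pool.Agent.N733.TG (Expanding NearG nearG_count)

/-- `n` is the order of a subgroup of `F_p^*` which contains the residue class of an integer `a` with `2 ≤ a ≤ B`. -/
def SubOrder (B : ℝ) (p n : ℕ) : Prop :=
  ∃ H : Subgroup (ZMod p)ˣ, Nat.card H = n ∧
    ∃ u ∈ H, ∃ a : ℕ, 2 ≤ a ∧ (a : ℝ) ≤ B ∧ ((u : (ZMod p)ˣ) : ZMod p) = (a : ZMod p)

theorem SubOrder.facts {B : ℝ} {p n : ℕ} (hp : p.Prime) (h : SubOrder B p n) :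
    1 ≤ n ∧ n ∣ p - 1 ∧ ∃ a : ℕ, 2 ≤ a ∧ (a : ℝ) ≤ B ∧ p ∣ a ^ n - 1 := by
  obtain ⟨H, hn, u, hu, a, ha, haB, hua⟩ := h
  have : Fact p.Prime := ⟨hp⟩
  have h1 : Nat.card H ∣ Nat.card (ZMod p)ˣ := Subgroup.card_subgroup_dvd_card H
  have h2 : Nat.card (ZMod p)ˣ = p - 1 := by
    rw [Nat.card_eq_fintype_card, ZMod.card_units]
  have h3 : 0 < Nat.card H := Nat.card_pos
  refine ⟨by omega, by rw [← hn, ← h2]; exact h1, a, ha, haB, ?_⟩
  have h4 : u ^ n = 1 := by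
    have h5 : (⟨u, hu⟩ : H) ^ Nat.card H = 1 := pow_card_eq_one'
    have h6 := congrArg (Subtype.val) h5
    rw [hn] at h6
    simpa using h6
  have h5 : ((a ^ n : ℕ) : ZMod p) = ((1 : ℕ) : ZMod p) := by
    push_cast
    rw [← hua, ← Units.val_pow_eq_pow_val, h4, Units.val_one]
  have h6 : 1 ≤ a ^ n := Nat.one_le_pow _ _ (by omega)
  exact (Nat.modEq_iff_dvd' h6).1 ((ZMod.natCast_eq_natCast_iff _ _ _).1 h5).symm

/-- the order of an integer `a`, `2 ≤ a ≤ B`, modulo `p` is such a number -/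
theorem subOrder_orderOf {B : ℝ} {p a : ℕ} (hp : p.Prime) (ha : 2 ≤ a) (haB : (a : ℝ) ≤ B) (hpa : ¬ p ∣ a) :
    SubOrder B p (orderOf (a : ZMod p)) := by
  have : Fact p.Prime := ⟨hp⟩
  have h0 : (a : ZMod p) ≠ 0 := by
    rw [Ne, ZMod.natCast_eq_zero_iff]
    exact hpa
  refine ⟨Subgroup.zpowers (Units.mk0 (a : ZMod p) h0), ?_, Units.mk0 (a : ZMod p) h0, Subgroup.mem_zpowers _, a, ha, haB, rfl⟩
  rw [Nat.card_zpowers, ← orderOf_units, Units.val_mk0]

lemma card_pf {a n L : ℕ} (ha : 2 ≤ a) (hn : 1 ≤ n) (hL : a ≤ 2 ^ L) : (a ^ n - 1).primeFactors.card ≤ n * L := by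
  have h0 : 1 < a ^ n := Nat.one_lt_pow (by omega) (by omega)
  have h1 : 2 ^ (a ^ n - 1).primeFactors.card ≤ ∏ p ∈ (a ^ n - 1).primeFactors, p :=
    Finset.pow_card_le_prod _ _ _ (fun p hp => (Nat.prime_of_mem_primeFactors hp).two_le)
  have h2 : ∏ p ∈ (a ^ n - 1).primeFactors, p ≤ a ^ n - 1 :=
    Nat.le_of_dvd (by omega) (Nat.prod_primeFactors_dvd _)
  have h3 : a ^ n - 1 ≤ 2 ^ (n * L) := by
    calc a ^ n - 1 ≤ a ^ n := Nat.sub_le _ _
      _ ≤ (2 ^ L) ^ n := Nat.pow_le_pow_left hL n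
      _ = 2 ^ (n * L) := by rw [← pow_mul, mul_comm]
  exact (Nat.pow_le_pow_iff_right (by norm_num)).1 (h1.trans (h2.trans h3))

/-- the exceptional primes -/
noncomputable def exc (W : Set ℕ) (c : ℝ) (X : ℕ) : Finset ℕ :=
  (Icc 1 X).filter (fun p => p.Prime ∧ ∃ n ∈ W, SubOrder ((X : ℝ) ^ c) p n)

lemma exc_card (W : Set ℕ) {c : ℝ} (hc0 : 0 ≤ c) (hc1 : c < 1) (X : ℕ) (hX : 1 ≤ X) :
    (exc W c X).card ≤
      ((Icc 1 ⌊(X : ℝ) ^ ((1 - c) / 2)⌋₊).filter (fun n => n ∈ W)).card * ⌊(X : ℝ) ^ c⌋₊ *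
        (⌊(X : ℝ) ^ ((1 - c) / 2)⌋₊ * (Nat.log 2 X + 1)) +
      ∑ k ∈ Icc 1 ⌊(X : ℝ) ^ ((1 + c) / 2)⌋₊, ((Icc 1 (X / k)).filter (fun n => n ∈ W)).card := by
  have hX1 : (1 : ℝ) ≤ X := by exact_mod_cast hX
  set y : ℕ := ⌊(X : ℝ) ^ ((1 - c) / 2)⌋₊ with hy
  set A : ℕ := ⌊(X : ℝ) ^ c⌋₊ with hA
  set Z : ℕ := ⌊(X : ℝ) ^ ((1 + c) / 2)⌋₊ with hZ
  set L : ℕ := Nat.log 2 X + 1 with hL
  set S1 : Finset ℕ := (((Icc 1 y).filter (fun n => n ∈ W)) ×ˢ (Icc 2 A)).biUnion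
    (fun q : ℕ × ℕ => (q.2 ^ q.1 - 1).primeFactors) with hS1
  set S2 : Finset ℕ := ((Icc 1 Z).biUnion (fun k => ((Icc 1 (X / k)).filter (fun n => n ∈ W)).image (fun n => n * k + 1)))
    with hS2
  have hAX : A ≤ X := by
    have h1 : (X : ℝ) ^ c ≤ (X : ℝ) ^ (1 : ℝ) := Real.rpow_le_rpow_of_exponent_le hX1 hc1.le
    rw [Real.rpow_one] at h1
    exact Nat.floor_le_of_le h1
  have hXL : X ≤ 2 ^ L := (Nat.lt_pow_succ_log_self (by norm_num) X).le
  have hsub : exc W c X ⊆ S1 ∪ S2 := by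
    intro p hp
    rw [exc, mem_filter, mem_Icc] at hp
    obtain ⟨⟨-, hpX⟩, hp1, n, hnW, hn⟩ := hp
    obtain ⟨hn1, hnp, a, ha, haB, hpa⟩ := hn.facts hp1
    rw [mem_union]
    rcases Nat.lt_or_ge y n with hyn | hyn
    · right
      obtain ⟨k, hk⟩ := hnp
      have hp2 := hp1.two_le
      have hk1 : 1 ≤ k := by
        rcases Nat.eq_zero_or_pos k with h | h
        · rw [h, mul_zero] at hk
          omega
        · exact h
      have hnkX : n * k ≤ X := by omega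
      rw [hS2, mem_biUnion]
      refine ⟨k, ?_, ?_⟩
      · rw [mem_Icc]
        refine ⟨hk1, ?_⟩
        rw [hZ]
        apply Nat.le_floor
        have h1 : (X : ℝ) ^ ((1 - c) / 2) < n := by
          rw [hy] at hyn
          exact (Nat.floor_lt (by positivity)).1 hyn
        have h2 : (n : ℝ) * k ≤ X := by exact_mod_cast hnkX
        have h3 : (X : ℝ) ^ ((1 - c) / 2) * (X : ℝ) ^ ((1 + c) / 2) = X := by
          rw [← Real.rpow_add (by linarith)]
          rw [show (1 - c) / 2 + (1 + c) / 2 = (1 : ℝ) by ring, Real.rpow_one]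
        have h4 : 0 < (X : ℝ) ^ ((1 - c) / 2) := Real.rpow_pos_of_pos (by linarith) _
        have h5 : (0 : ℝ) < k := by exact_mod_cast hk1
        by_contra hcon
        rw [not_le] at hcon
        have h6 : (X : ℝ) ^ ((1 - c) / 2) * (X : ℝ) ^ ((1 + c) / 2) < (n : ℝ) * k := by
          calc (X : ℝ) ^ ((1 - c) / 2) * (X : ℝ) ^ ((1 + c) / 2) < (X : ℝ) ^ ((1 - c) / 2) * k :=
                mul_lt_mul_of_pos_left hcon h4
            _ ≤ (n : ℝ) * k := mul_le_mul_of_nonneg_right h1.le h5.le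
        rw [h3] at h6
        linarith
      · rw [mem_image]
        refine ⟨n, ?_, by omega⟩
        rw [mem_filter, mem_Icc]
        exact ⟨⟨hn1, (Nat.le_div_iff_mul_le hk1).2 hnkX⟩, hnW⟩
    · left
      rw [hS1, mem_biUnion]
      refine ⟨(n, a), ?_, ?_⟩
      · rw [mem_product, mem_filter, mem_Icc, mem_Icc]
        exact ⟨⟨⟨hn1, hyn⟩, hnW⟩, ha, Nat.le_floor haB⟩
      · rw [Nat.mem_primeFactors]
        refine ⟨hp1, hpa, ?_⟩
        have h0 : 1 < a ^ n := Nat.one_lt_pow (by omega) (by omega)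
        change a ^ n - 1 ≠ 0
        omega
  have hc1 : S1.card ≤ ((Icc 1 y).filter (fun n => n ∈ W)).card * A * (y * L) := by
    refine card_biUnion_le.trans ?_
    calc ∑ q ∈ ((Icc 1 y).filter (fun n => n ∈ W)) ×ˢ (Icc 2 A), (q.2 ^ q.1 - 1).primeFactors.card
        ≤ ∑ q ∈ ((Icc 1 y).filter (fun n => n ∈ W)) ×ˢ (Icc 2 A), y * L := by
          apply sum_le_sum
          rintro ⟨n, a⟩ hq
          rw [mem_product, mem_filter, mem_Icc, mem_Icc] at hq
          obtain ⟨⟨⟨hn1, hny⟩, -⟩, ha, haA⟩ := hq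
          exact (card_pf ha hn1 ((haA.trans hAX).trans hXL)).trans (Nat.mul_le_mul_right _ hny)
      _ = (((Icc 1 y).filter (fun n => n ∈ W)).card * (Icc 2 A).card) * (y * L) := by
          rw [sum_const, card_product, smul_eq_mul]
      _ ≤ ((Icc 1 y).filter (fun n => n ∈ W)).card * A * (y * L) := by
          apply Nat.mul_le_mul_right
          apply Nat.mul_le_mul_left
          rw [Nat.card_Icc]
          omega
  have hc2 : S2.card ≤ ∑ k ∈ Icc 1 Z, ((Icc 1 (X / k)).filter (fun n => n ∈ W)).card := by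
    refine card_biUnion_le.trans (sum_le_sum fun k _ => card_image_le)
  exact (card_le_card hsub).trans ((card_union_le _ _).trans (add_le_add hc1 hc2))

end Pool.Agent.T9h59.OR
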