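import Pool.Agent.T9h59.OR.A

/-!
# The orders of the subgroups of `F_p^*` which contain a small integer: real exponents and windows
-/

set_option autoImplicit false

namespace Pool.Agent.T9h59.OR

open Finset Classical
open Pool.Agent.N733.TG (Expanding NearG nearG_count)

lemma natlog_le {X : ℕ} (hX : 1 ≤ X) : ((Nat.log 2 X + 1 : ℕ) : ℝ) ≤ 2 * Real.log X + 1 := by
  have h1 : (2 : ℝ) ^ (Nat.log 2 X) ≤ X := by exact_mod_cast Nat.pow_log_le_self 2 (by omega)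
  have h2 : (Nat.log 2 X : ℝ) * Real.log 2 ≤ Real.log X := by
    rw [← Real.log_pow]
    exact Real.log_le_log (by positivity) h1
  have h3 : (0.69 : ℝ) < Real.log 2 := by linarith [Real.log_two_gt_d9]
  have h4 : (0 : ℝ) ≤ (Nat.log 2 X : ℝ) := Nat.cast_nonneg _
  push_cast
  nlinarith

lemma sum_inv_le (Z : ℕ) {B : ℝ} (hB : 1 ≤ B) (hZ : (Z : ℝ) ≤ B) {θ : ℝ} (hθ1 : θ ≤ 1) :
    ∑ k ∈ Icc 1 Z, ((k : ℝ)⁻¹) ^ θ ≤ B ^ (1 - θ) * (1 + Real.log B) := by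
  have h1 : ∑ k ∈ Icc 1 Z, ((k : ℝ)⁻¹) ^ θ ≤ ∑ k ∈ Icc 1 Z, B ^ (1 - θ) * ((k : ℝ)⁻¹) := by
    apply sum_le_sum
    intro k hk
    rw [mem_Icc] at hk
    have hk1 : (0 : ℝ) < k := by exact_mod_cast hk.1
    have hkB : (k : ℝ) ≤ B := le_trans (by exact_mod_cast hk.2) hZ
    have e : ((k : ℝ)⁻¹) ^ θ = (k : ℝ) ^ (1 - θ) * (k : ℝ)⁻¹ := by
      rw [Real.inv_rpow hk1.le, ← Real.rpow_neg hk1.le, ← Real.rpow_neg_one, ← Real.rpow_add hk1]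
      congr 1
      ring
    rw [e]
    exact mul_le_mul_of_nonneg_right (Real.rpow_le_rpow hk1.le hkB (by linarith)) (by positivity)
  refine h1.trans ?_
  rw [← mul_sum]
  apply mul_le_mul_of_nonneg_left _ (by positivity)
  have h2 : ∑ k ∈ Icc 1 Z, ((k : ℝ)⁻¹) = ((harmonic Z : ℚ) : ℝ) := by
    rw [harmonic_eq_sum_Icc]
    push_cast
    rfl
  rw [h2]
  refine (harmonic_le_one_add_log Z).trans ?_
  rcases Nat.eq_zero_or_pos Z with h0 | h0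
  · rw [h0]
    simp [Real.log_nonneg hB]
  · have h3 : (0 : ℝ) < Z := by exact_mod_cast h0
    linarith [Real.log_le_log h3 hZ]

theorem exc_bound {W : Set ℕ} {θ K : ℝ} (hθ0 : 0 ≤ θ) (hθ1 : θ ≤ 1)
    (hW : ∀ X : ℕ, 1 ≤ X → (((Icc 1 X).filter (fun n => n ∈ W)).card : ℝ) ≤ K * (X : ℝ) ^ θ)
    {c : ℝ} (hc0 : 0 ≤ c) (hc1 : c < 1) {ε : ℝ} (hε : 0 < ε) (X : ℕ) (hX : 1 ≤ X) :
    ((exc W c X).card : ℝ) ≤ (K * (3 / ε + 2)) * (X : ℝ) ^ (1 - (1 - c) * (1 - θ) / 2 + ε) := by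
  have hX1 : (1 : ℝ) ≤ X := by exact_mod_cast hX
  have hX0 : (0 : ℝ) < X := by linarith
  have hK : 0 ≤ K := by
    have := hW 1 le_rfl
    rw [Nat.cast_one, Real.one_rpow, mul_one] at this
    exact le_trans (Nat.cast_nonneg _) this
  have h := exc_card W hc0 hc1 X hX
  have hlX : 0 ≤ Real.log X := Real.log_nonneg hX1
  set E : ℝ := 1 - (1 - c) * (1 - θ) / 2 with hE
  set yr : ℝ := (X : ℝ) ^ ((1 - c) / 2) with hyr
  set Zr : ℝ := (X : ℝ) ^ ((1 + c) / 2) with hZr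
  have hyr1 : 1 ≤ yr := Real.one_le_rpow hX1 (by linarith)
  have hZr1 : 1 ≤ Zr := Real.one_le_rpow hX1 (by linarith)
  have hy1 : 1 ≤ ⌊yr⌋₊ := Nat.le_floor (by exact_mod_cast hyr1)
  have hyle : ((⌊yr⌋₊ : ℕ) : ℝ) ≤ yr := Nat.floor_le (by linarith)
  have hZle : ((⌊Zr⌋₊ : ℕ) : ℝ) ≤ Zr := Nat.floor_le (by linarith)
  have hAle : ((⌊(X : ℝ) ^ c⌋₊ : ℕ) : ℝ) ≤ (X : ℝ) ^ c := Nat.floor_le (by positivity)
  -- the first term
  have ht1 : (((((Icc 1 ⌊yr⌋₊).filter (fun n => n ∈ W)).card * ⌊(X : ℝ) ^ c⌋₊ *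
      (⌊yr⌋₊ * (Nat.log 2 X + 1)) : ℕ)) : ℝ) ≤ K * (2 * Real.log X + 1) * (X : ℝ) ^ E := by
    push_cast
    have e1 : (((Icc 1 ⌊yr⌋₊).filter (fun n => n ∈ W)).card : ℝ) ≤ K * yr ^ θ :=
      (hW _ hy1).trans (mul_le_mul_of_nonneg_left (Real.rpow_le_rpow (Nat.cast_nonneg _) hyle hθ0) hK)
    have e2 := natlog_le hX
    push_cast at e2
    calc (((Icc 1 ⌊yr⌋₊).filter (fun n => n ∈ W)).card : ℝ) * (⌊(X : ℝ) ^ c⌋₊ : ℝ) * ((⌊yr⌋₊ : ℝ) * ((Nat.log 2 X : ℝ) + 1))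
        ≤ (K * yr ^ θ) * (X : ℝ) ^ c * (yr * (2 * Real.log X + 1)) := by
          gcongr
      _ = K * (2 * Real.log X + 1) * (yr ^ θ * (X : ℝ) ^ c * yr) := by ring
      _ = K * (2 * Real.log X + 1) * (X : ℝ) ^ E := by
          congr 1
          rw [hyr, ← Real.rpow_mul hX0.le, ← Real.rpow_add hX0, ← Real.rpow_add hX0]
          congr 1
          rw [hE]
          ring
  -- the second term
  have ht2 : (((∑ k ∈ Icc 1 ⌊Zr⌋₊, ((Icc 1 (X / k)).filter (fun n => n ∈ W)).card : ℕ)) : ℝ) ≤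
      K * (1 + Real.log X) * (X : ℝ) ^ E := by
    push_cast
    have e1 : ∀ k ∈ Icc 1 ⌊Zr⌋₊, (((Icc 1 (X / k)).filter (fun n => n ∈ W)).card : ℝ) ≤
        K * (X : ℝ) ^ θ * ((k : ℝ)⁻¹) ^ θ := by
      intro k hk
      rw [mem_Icc] at hk
      have hk0 : (0 : ℝ) < k := by exact_mod_cast hk.1
      rcases Nat.eq_zero_or_pos (X / k) with h0 | h0
      · rw [h0]
        simp only [Icc_eq_empty_of_lt (show 0 < 1 by norm_num), filter_empty, card_empty, Nat.cast_zero]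
        positivity
      · refine (hW _ h0).trans ?_
        rw [mul_assoc, ← Real.mul_rpow hX0.le (by positivity)]
        apply mul_le_mul_of_nonneg_left _ hK
        apply Real.rpow_le_rpow (Nat.cast_nonneg _) _ hθ0
        rw [← div_eq_mul_inv]
        exact Nat.cast_div_le
    refine (sum_le_sum e1).trans ?_
    rw [← mul_sum]
    have e2 := sum_inv_le ⌊Zr⌋₊ hZr1 hZle hθ1
    have e3 : Real.log Zr ≤ Real.log X := by
      apply Real.log_le_log (by linarith)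
      calc Zr ≤ (X : ℝ) ^ (1 : ℝ) := Real.rpow_le_rpow_of_exponent_le hX1 (by linarith)
        _ = X := Real.rpow_one _
    calc K * (X : ℝ) ^ θ * ∑ k ∈ Icc 1 ⌊Zr⌋₊, ((k : ℝ)⁻¹) ^ θ
        ≤ K * (X : ℝ) ^ θ * (Zr ^ (1 - θ) * (1 + Real.log X)) := by
          apply mul_le_mul_of_nonneg_left _ (by positivity)
          refine e2.trans (mul_le_mul_of_nonneg_left (by linarith) (by positivity))
      _ = K * (1 + Real.log X) * ((X : ℝ) ^ θ * Zr ^ (1 - θ)) := by ring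
      _ = K * (1 + Real.log X) * (X : ℝ) ^ E := by
          congr 1
          rw [hZr, ← Real.rpow_mul hX0.le, ← Real.rpow_add hX0]
          congr 1
          rw [hE]
          ring
  have h2 : ((exc W c X).card : ℝ) ≤ K * (2 * Real.log X + 1) * (X : ℝ) ^ E + K * (1 + Real.log X) * (X : ℝ) ^ E := by
    refine le_trans ?_ (add_le_add ht1 ht2)
    exact_mod_cast h
  have h3 : Real.log X ≤ (X : ℝ) ^ ε / ε := Real.log_le_rpow_div hX0.le hε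
  have h4 : (1 : ℝ) ≤ (X : ℝ) ^ ε := Real.one_le_rpow hX1 hε.le
  have h5 : 3 * Real.log X + 2 ≤ (3 / ε + 2) * (X : ℝ) ^ ε := by
    have e : (3 / ε + 2) * (X : ℝ) ^ ε = 3 * ((X : ℝ) ^ ε / ε) + 2 * (X : ℝ) ^ ε := by ring
    rw [e]
    linarith
  calc ((exc W c X).card : ℝ) ≤ K * (3 * Real.log X + 2) * (X : ℝ) ^ E := by
        refine h2.trans (le_of_eq ?_)
        ring
    _ ≤ K * ((3 / ε + 2) * (X : ℝ) ^ ε) * (X : ℝ) ^ E := by gcongr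
    _ = (K * (3 / ε + 2)) * (X : ℝ) ^ (E + ε) := by
        rw [Real.rpow_add hX0]
        ring

/-- **Main tool.** Let `S` have `O_ε (X ^ (s + ε))` elements of height at most `X`, and let `G` be expanding of growth `d`,
`d s + κ < 1`, `0 ≤ c < 1`, `η < (1 - c) (1 - (d s + κ)) / 2`. For all primes `p ≤ X` but `O(X ^ (1 - η))`, for ALL subgroups of
`F_p^*` which contain an integer `a`, `2 ≤ a ≤ X ^ c`, no element of `S` has a height within `n ^ κ` of `G n`, `n` the order of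
the subgroup. -/
theorem sub_windows {T : Type*} (S : Set T) (h : T → ℝ) {G : ℕ → ℝ} {d : ℝ} (hG : Expanding G d) {s κ : ℝ} (hs : 0 ≤ s)
    (hκ : 0 ≤ κ) (h1 : d * s + κ < 1)
    (hS : ∀ ε : ℝ, 0 < ε → ∃ C : ℝ, ∀ X : ℝ, 1 ≤ X →
      {t | t ∈ S ∧ h t ≤ X}.Finite ∧ ({t | t ∈ S ∧ h t ≤ X}.ncard : ℝ) ≤ C * X ^ (s + ε))
    {c η : ℝ} (hc0 : 0 ≤ c) (hc1 : c < 1) (hη : η < (1 - c) * (1 - (d * s + κ)) / 2) :
    ∃ C : ℝ, ∀ X : ℕ, 1 ≤ X →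
      ({p : ℕ | p.Prime ∧ p ≤ X ∧ ∃ n, SubOrder ((X : ℝ) ^ c) p n ∧ ∃ t ∈ S, |h t - G n| ≤ (n : ℝ) ^ κ}.ncard : ℝ) ≤
        C * (X : ℝ) ^ (1 - η) := by
  have hd := hG.one_le
  set D : ℝ := (1 - c) * (1 - (d * s + κ)) / 2 - η with hD
  have hD0 : 0 < D := by rw [hD]; linarith
  have hds : 0 ≤ d * s := by positivity
  obtain ⟨ε, hε⟩ : ∃ ε, ε = min (D / 2) ((1 - d * s - κ) / 2) / d := ⟨_, rfl⟩
  have hm0 : 0 < min (D / 2) ((1 - d * s - κ) / 2) := lt_min (by linarith) (by linarith)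
  have hε0 : 0 < ε := by
    rw [hε]
    exact div_pos hm0 (by linarith)
  have hεd : d * ε = min (D / 2) ((1 - d * s - κ) / 2) := by
    rw [hε]
    field_simp
  have hεd1 : d * ε ≤ D / 2 := by rw [hεd]; exact min_le_left _ _
  have hεd2 : d * ε ≤ (1 - d * s - κ) / 2 := by rw [hεd]; exact min_le_right _ _
  obtain ⟨C, hC⟩ := hS ε hε0
  obtain ⟨K, hK⟩ := nearG_count S h hG (s := s + ε) (κ := κ) (by linarith) hκ (by linarith) ⟨C, hC⟩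
  have hθ : d * (s + ε) + κ ≤ 1 := by
    rw [mul_add]
    linarith
  refine ⟨K * (3 / (D / 2) + 2), fun X hX => ?_⟩
  have hX1 : (1 : ℝ) ≤ X := by exact_mod_cast hX
  have h2 := exc_bound (W := NearG S h G κ) (θ := d * (s + ε) + κ) (K := K) (by positivity) hθ hK hc0 hc1
    (ε := D / 2) (by linarith) X hX
  have hK0 : 0 ≤ K * (3 / (D / 2) + 2) := by
    have := hK 1 le_rfl
    rw [Nat.cast_one, Real.one_rpow, mul_one] at this
    have h5 : 0 ≤ K := le_trans (Nat.cast_nonneg _) this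
    positivity
  refine le_trans ?_ (h2.trans (mul_le_mul_of_nonneg_left (Real.rpow_le_rpow_of_exponent_le hX1 ?_) hK0))
  · rw [Nat.cast_le, ← Set.ncard_coe_finset]
    apply Set.ncard_le_ncard _ (finite_toSet _)
    rintro p ⟨hp, hpX, n, hn, t, ht, htn⟩
    rw [mem_coe, exc, mem_filter, mem_Icc]
    exact ⟨⟨hp.one_lt.le, hpX⟩, hp, n, ⟨t, ht, htn⟩, hn⟩
  · have h5 : (1 - c) * (d * ε) ≤ 1 * (D / 2) :=
      mul_le_mul (by linarith) hεd1 (by positivity) zero_le_one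
    have h6 : (1 - c) * (1 - (d * (s + ε) + κ)) / 2 = (1 - c) * (1 - (d * s + κ)) / 2 - (1 - c) * (d * ε) / 2 := by ring
    rw [h6]
    have h7 : (1 - c) * (1 - (d * s + κ)) / 2 = D + η := by rw [hD]; ring
    rw [h7]
    linarith

/-- the same for admissible objects which are good -/
theorem sub_good {T : Type*} (Adm Good : T → Prop) (h : T → ℝ) {G : ℕ → ℝ} {d : ℝ} (hG : Expanding G d) {s κ : ℝ}
    (hs : 0 ≤ s) (hκ : 0 ≤ κ) (h1 : d * s + κ < 1)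
    (hS : ∀ ε : ℝ, 0 < ε → ∃ C : ℝ, ∀ X : ℝ, 1 ≤ X →
      {t | (Adm t ∧ ¬ Good t) ∧ h t ≤ X}.Finite ∧ ({t | (Adm t ∧ ¬ Good t) ∧ h t ≤ X}.ncard : ℝ) ≤ C * X ^ (s + ε))
    {c η : ℝ} (hc0 : 0 ≤ c) (hc1 : c < 1) (hη : η < (1 - c) * (1 - (d * s + κ)) / 2) :
    ∃ C : ℝ, ∀ X : ℕ, 1 ≤ X →
      ({p : ℕ | p.Prime ∧ p ≤ X ∧ ¬ ∀ n, SubOrder ((X : ℝ) ^ c) p n → ∀ t, Adm t → |h t - G n| ≤ (n : ℝ) ^ κ →
        Good t}.ncard : ℝ) ≤ C * (X : ℝ) ^ (1 - η) := by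
  obtain ⟨C, hC⟩ := sub_windows {t | Adm t ∧ ¬ Good t} h hG hs hκ h1 hS hc0 hc1 hη
  refine ⟨C, fun X hX => le_trans ?_ (hC X hX)⟩
  have hfin : {p : ℕ | p.Prime ∧ p ≤ X ∧ ∃ n, SubOrder ((X : ℝ) ^ c) p n ∧
      ∃ t ∈ {t | Adm t ∧ ¬ Good t}, |h t - G n| ≤ (n : ℝ) ^ κ}.Finite :=
    (Set.finite_Icc 0 X).subset (fun p hp => ⟨Nat.zero_le _, hp.2.1⟩)
  have hsub : {p : ℕ | p.Prime ∧ p ≤ X ∧ ¬ ∀ n, SubOrder ((X : ℝ) ^ c) p n → ∀ t, Adm t → |h t - G n| ≤ (n : ℝ) ^ κ →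
        Good t} ⊆ {p : ℕ | p.Prime ∧ p ≤ X ∧ ∃ n, SubOrder ((X : ℝ) ^ c) p n ∧
      ∃ t ∈ {t | Adm t ∧ ¬ Good t}, |h t - G n| ≤ (n : ℝ) ^ κ} := by
    rintro p ⟨hp, hpX, hn⟩
    push Not at hn
    obtain ⟨n, hn1, t, ht1, ht2, ht3⟩ := hn
    exact ⟨hp, hpX, n, hn1, t, ⟨ht1, ht3⟩, ht2⟩
  exact_mod_cast Set.ncard_le_ncard hsub hfin

end Pool.Agent.T9h59.OR
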